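import Pool.Agent.MP_1a6d78_lc.GX.Close

/-! Reachability in digraphs embedded with genus `g`: polynomial time and space
`O((g + 1) log ^ 3 n)`. -/

namespace Pool.Agent.Results.MP_1a6d78_lc.GenusReachSC

open Pool.Agent.MP_1a6d78_lc

theorem result :
    ∃ (M : ED.TM) (c : ℕ), ∀ x : List Bool, ∃ r : Bool,
      M.out (M.run x ((x.length + 2) ^ c)).q = some r ∧
      ∀ (n : ℕ) (σ α : Equiv.Perm (Fin n)) (dir : Fin n → Bool) (s t : Fin n),
        α * α = 1 → x = PR.code σ α dir s t →
          (r = true ↔ PR.Reach σ α dir s t) ∧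
          ∀ (τ : ℕ) (i : Fin M.k),
            (M.run x τ).head i ≤ c * (GM.genus σ α + 1) * (Nat.log 2 x.length + 1) ^ 3 :=
  GX.close

end Pool.Agent.Results.MP_1a6d78_lc.GenusReachSC
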