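import Pool.Agent.MP_1a6d78_lc.MI.All

/-! A maximal independent set of every graph is computed in polynomial time and space
`O(log ^ 3 n)`. -/

namespace Pool.Agent.Results.MP_1a6d78_lc.MaximalIndependentSetSC

open Pool.Agent.MP_1a6d78_lc

theorem result :
    ∃ (M : ED.TM) (c : ℕ),
      (∀ x : List Bool, (M.out (M.run x ((x.length + 2) ^ c)).q).isSome ∧
        ∀ (τ : ℕ) (i : Fin M.k), (M.run x τ).head i ≤ c * (Nat.log 2 x.length + 1) ^ 3) ∧
      ∀ (n : ℕ) (G : SimpleGraph (Fin n)), Maximal G.IsIndepSet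
        {v | M.out (M.run (MI.code G v) (((MI.code G v).length + 2) ^ c)).q = some true} :=
  MI.main

end Pool.Agent.Results.MP_1a6d78_lc.MaximalIndependentSetSC
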