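import Mathlib
import Pool.Agent.MP_1a6d78_lc.Defs
import Pool.Agent.MP_1a6d78_lc.Classes
import Pool.Agent.MP_1a6d78_lc.Both

namespace Pool.Agent.Results.MP_1a6d78_lc.MonotoneIncomparable

open Pool.Agent.MP_1a6d78_lc

/-- The monotone (nonuniform) classes SC and NC are incomparable. -/
theorem result : (∃ f, MonSC f ∧ ¬ MonNC f) ∧ (∃ f, MonNC f ∧ ¬ MonSC f) :=
  ⟨sc_not_nc, nc_not_sc⟩

end Pool.Agent.Results.MP_1a6d78_lc.MonotoneIncomparable
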